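import Pool.Agent.H839R3.Nas.Stmts

set_option autoImplicit false

namespace Pool.Agent.H532R3.Nas.H

open Pool.Agent.H839R3.Nas

lemma two (v : V) : v + v = 0 := by
  ext i
  simp only [Finsupp.add_apply, Finsupp.zero_apply]
  exact CharTwo.add_self_eq_zero (v i)

lemma two' (p : V × V) : p + p = 0 := Prod.ext (two p.1) (two p.2)

lemma negeq (p : V × V) : -p = p := by
  rw [neg_eq_iff_add_eq_zero]; exact two' p

/-- good finite subgroups of the product -/
structure Gd (U : V → Prop) (R : AddSubgroup (V × V)) : Prop where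
  fin : (R : Set (V × V)).Finite
  inj : ∀ p ∈ R, p.1 = 0 ↔ p.2 = 0
  pres : ∀ p ∈ R, (U p.1 ↔ U p.2)

/-- the extension by one point -/
def exts (R : AddSubgroup (V × V)) (q : V × V) : AddSubgroup (V × V) where
  carrier := {p | p ∈ R ∨ p + q ∈ R}
  zero_mem' := Or.inl R.zero_mem
  neg_mem' := by
    intro p hp
    rw [negeq]; exact hp
  add_mem' := by
    rintro p p' (h | h) (h' | h')
    · exact Or.inl (R.add_mem h h')
    · right
      have := R.add_mem h h'
      rwa [← add_assoc] at this
    · right
      have := R.add_mem h h'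
      have e : p + q + p' = p + p' + q := by abel
      rwa [e] at this
    · left
      have := R.add_mem h h'
      have e : p + q + (p' + q) = p + p' + (q + q) := by abel
      rw [e, two', add_zero] at this
      exact this

lemma le_exts (R : AddSubgroup (V × V)) (q : V × V) : R ≤ exts R q := fun _ hp => Or.inl hp

lemma mem_exts (R : AddSubgroup (V × V)) (q : V × V) : q ∈ exts R q := by
  right
  rw [two']
  exact R.zero_mem

lemma fwd {U : V → Prop} (hU : Ext U) {R : AddSubgroup (V × V)} (hR : Gd U R) (v : V) :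
    ∃ R', R ≤ R' ∧ Gd U R' ∧ ∃ w, (v, w) ∈ R' := by
  classical
  by_cases hv : ∃ w, (v, w) ∈ R
  · exact ⟨R, le_rfl, hR, hv⟩
  · have hB : ((fun p : V × V => p.2) '' (R : Set (V × V))).Finite := hR.fin.image _
    obtain ⟨x, hx, hxU⟩ := hU hB.toFinset {w | ∃ a, (a, w) ∈ R ∧ U (v + a)}
    have hx' : ∀ a, (a, x) ∉ R := by
      intro a ha
      apply hx
      rw [Set.Finite.mem_toFinset]
      exact ⟨(a, x), ha, rfl⟩
    refine ⟨exts R (v, x), le_exts _ _, ?_, x, mem_exts _ _⟩
    constructor
    · have : ((exts R (v, x) : AddSubgroup (V × V)) : Set (V × V)) ⊆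
          (R : Set (V × V)) ∪ (fun p => p + (v, x)) '' (R : Set (V × V)) := by
        rintro p (hp | hp)
        · exact Or.inl hp
        · right
          refine ⟨p + (v, x), hp, ?_⟩
          simp only
          rw [add_assoc, two', add_zero]
      exact (hR.fin.union (hR.fin.image _)).subset this
    · rintro p (hp | hp)
      · exact hR.inj p hp
      · constructor
        · intro h0
          exfalso
          apply hv
          refine ⟨p.2 + x, ?_⟩
          have e : p + (v, x) = (v, p.2 + x) := by
            apply Prod.ext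
            · simp [h0]
            · simp
          rwa [e] at hp
        · intro h0
          exfalso
          apply hx' (p.1 + v)
          have e : p + (v, x) = (p.1 + v, x) := by
            apply Prod.ext
            · simp
            · simp [h0]
          rwa [e] at hp
    · rintro p (hp | hp)
      · exact hR.pres p hp
      · have hmem : p.2 + x ∈ hB.toFinset := by
          rw [Set.Finite.mem_toFinset]
          exact ⟨p + (v, x), hp, rfl⟩
        have h1 := hxU _ hmem
        have e1 : x + (p.2 + x) = p.2 := by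
          have : x + (p.2 + x) = p.2 + (x + x) := by abel
          rw [this, two, add_zero]
        have e2 : v + (p.1 + v) = p.1 := by
          have : v + (p.1 + v) = p.1 + (v + v) := by abel
          rw [this, two, add_zero]
        rw [e1] at h1
        rw [h1]
        constructor
        · intro hp1
          refine ⟨p.1 + v, hp, ?_⟩
          rwa [e2]
        · rintro ⟨a, ha, haU⟩
          have h2 : ((p.1 + v) - a, (0 : V)) ∈ R := by
            have := R.sub_mem hp ha
            have e : p + (v, x) - (a, p.2 + x) = ((p.1 + v) - a, (0 : V)) := by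
              apply Prod.ext
              · simp
              · simp
            rwa [e] at this
          have h3 := (hR.inj _ h2).2 rfl
          simp only at h3
          have h4 : a = p.1 + v := (sub_eq_zero.1 h3).symm
          rw [h4, e2] at haU
          exact haU

/-- the swapped subgroup -/
def sw (R : AddSubgroup (V × V)) : AddSubgroup (V × V) where
  carrier := {p | (p.2, p.1) ∈ R}
  zero_mem' := R.zero_mem
  neg_mem' := by
    intro p hp
    rw [negeq]; exact hp
  add_mem' := by
    intro p q hp hq
    exact R.add_mem hp hq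

lemma sw_gd {U : V → Prop} {R : AddSubgroup (V × V)} (hR : Gd U R) : Gd U (sw R) := by
  constructor
  · have : ((sw R : AddSubgroup (V × V)) : Set (V × V)) =
        (fun p : V × V => (p.2, p.1)) '' (R : Set (V × V)) := by
      ext p
      constructor
      · intro hp
        exact ⟨(p.2, p.1), hp, rfl⟩
      · rintro ⟨q, hq, rfl⟩
        exact hq
    rw [this]
    exact hR.fin.image _
  · intro p hp
    exact (hR.inj _ hp).symm
  · intro p hp
    exact (hR.pres _ hp).symm

lemma bwd {U : V → Prop} (hU : Ext U) {R : AddSubgroup (V × V)} (hR : Gd U R) (w : V) :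
    ∃ R', R ≤ R' ∧ Gd U R' ∧ ∃ v, (v, w) ∈ R' := by
  obtain ⟨R', h1, h2, v, h3⟩ := fwd hU (sw_gd hR) w
  exact ⟨sw R', fun p hp => h1 (show ((p.2, p.1) : V × V) ∈ sw R from hp), sw_gd h2, v, h3⟩

lemma both {U : V → Prop} (hU : Ext U) (R : {R : AddSubgroup (V × V) // Gd U R}) (v : V) :
    ∃ R' : {R : AddSubgroup (V × V) // Gd U R}, R.1 ≤ R'.1 ∧ (∃ w, (v, w) ∈ R'.1) ∧
      ∃ u, (u, v) ∈ R'.1 := by
  obtain ⟨R1, h1, g1, w, hw⟩ := fwd hU R.2 v
  obtain ⟨R2, h2, g2, u, hu⟩ := bwd hU g1 v
  exact ⟨⟨R2, g2⟩, h1.trans h2, ⟨w, h2 hw⟩, ⟨u, hu⟩⟩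

theorem taskH : TaskH := by
  intro U hU A φ hA hinj hφ
  classical
  -- the start
  let R0 : AddSubgroup (V × V) := (A.subtype.prod φ).range
  have hR0 : Gd U R0 := by
    constructor
    · have : (R0 : Set (V × V)) = Set.range (A.subtype.prod φ) := by
        ext p; simp [R0]
      rw [this]
      exact Set.finite_range _
    · rintro p ⟨a, rfl⟩
      simp only [AddMonoidHom.prod_apply, AddSubgroup.subtype_apply]
      constructor
      · intro h
        have : a = 0 := Subtype.ext h
        rw [this, map_zero]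
      · intro h
        have : a = 0 := hinj (by rw [h, map_zero])
        rw [this]; rfl
    · rintro p ⟨a, rfl⟩
      simp only [AddMonoidHom.prod_apply, AddSubgroup.subtype_apply]
      exact (hφ a).symm
  obtain ⟨e, he⟩ := exists_surjective_nat V
  choose f hf1 hf2 hf3 using both hU
  let R : ℕ → {R : AddSubgroup (V × V) // Gd U R} :=
    fun n => Nat.rec ⟨R0, hR0⟩ (fun n S => f S (e n)) n
  have hRs : ∀ n, R (n + 1) = f (R n) (e n) := fun n => rfl
  have hmono : Monotone fun n => (R n).1 := by
    apply monotone_nat_of_le_succ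
    intro n
    rw [hRs]
    exact hf1 _ _
  let T : V → V → Prop := fun v w => ∃ n, (v, w) ∈ (R n).1
  have hTadd : ∀ v w v' w', T v w → T v' w' → T (v + v') (w + w') := by
    rintro v w v' w' ⟨n, hn⟩ ⟨m, hm⟩
    refine ⟨max n m, ?_⟩
    exact (R (max n m)).1.add_mem (hmono (le_max_left n m) hn) (hmono (le_max_right n m) hm)
  have hTsub : ∀ v w v' w', T v w → T v' w' → T (v - v') (w - w') := by
    rintro v w v' w' ⟨n, hn⟩ ⟨m, hm⟩
    refine ⟨max n m, ?_⟩
    exact (R (max n m)).1.sub_mem (hmono (le_max_left n m) hn) (hmono (le_max_right n m) hm)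
  have hT0 : ∀ v w, T v w → (v = 0 ↔ w = 0) := by
    rintro v w ⟨n, hn⟩
    exact (R n).2.inj _ hn
  have hTU : ∀ v w, T v w → (U v ↔ U w) := by
    rintro v w ⟨n, hn⟩
    exact (R n).2.pres _ hn
  have huniq : ∀ v w w', T v w → T v w' → w = w' := by
    intro v w w' h h'
    have := hTsub _ _ _ _ h h'
    rw [sub_self] at this
    exact sub_eq_zero.1 ((hT0 _ _ this).1 rfl)
  have htot : ∀ v, ∃ w, T v w := by
    intro v
    obtain ⟨n, rfl⟩ := he v
    obtain ⟨w, hw⟩ := hf2 (R n) (e n)
    exact ⟨w, n + 1, hw⟩
  have hsur : ∀ w, ∃ v, T v w := by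
    intro v
    obtain ⟨n, rfl⟩ := he v
    obtain ⟨w, hw⟩ := hf3 (R n) (e n)
    exact ⟨w, n + 1, hw⟩
  choose g hg using htot
  have hadd : ∀ v v', g (v + v') = g v + g v' := fun v v' =>
    huniq _ _ _ (hg _) (hTadd _ _ _ _ (hg v) (hg v'))
  let G : V →+ V := AddMonoidHom.mk' g hadd
  have hG : ∀ v, G v = g v := fun v => rfl
  have hbij : Function.Bijective G := by
    constructor
    · intro v v' h
      rw [hG, hG] at h
      have := hTsub _ _ _ _ (hg v) (hg v')
      rw [h, sub_self] at this
      exact sub_eq_zero.1 ((hT0 _ _ this).2 rfl)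
    · intro w
      obtain ⟨v, hv⟩ := hsur w
      exact ⟨v, huniq _ _ _ (hg v) hv⟩
  refine ⟨AddEquiv.ofBijective G hbij, ?_, ?_⟩
  · intro v
    exact (hTU _ _ (hg v)).symm
  · intro a
    have h1 : T (a : V) (φ a) := ⟨0, ⟨a, rfl⟩⟩
    exact huniq _ _ _ (hg _) h1

end Pool.Agent.H532R3.Nas.H
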